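import Pool.Agent.X160.Pl.Fin

set_option autoImplicit false

/-!
# MP_850839: the tube inequality in the full range, without loss and without any regularity, for
# families of tubes with planar hairbrushes

`n ≥ 3`.  The hairbrush of the tube `T_i` is the set of the tubes that meet it.

1. (criterion) Suppose that the tubes are ranked and that for every `i` there are a plane
  `V_i = span(e_i, w_i)` and `b` points (centres of focus) such that, whenever a tube `T_j` of rank
  at most that of `T_i` contains a point `x` of `T_i`, the direction `e_j` is at distance at most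
  `K δ / |x - p|` from `V_i` for one of these points `p`.  Then the conjectured inequality holds
  for all `q > n/(n-1)`, with no loss in `δ` and with the conjectured dependence on the number of
  tubes.
2. This applies to the families of tubes whose axes `a_i + ℝ e_i` lie (up to `κ δ`) in the planes
  `p + span(e_i, J e_i)`, for any complex structure `J` (`J² = -1`) and for any linear involution
  `J` (`J² = 1`): the tube with direction `e_i` is placed arbitrarily in its plane, with no
  regularity in its dependence on `e_i`.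
3. It applies to the families of tubes whose axes are coplanar with (meet, or are parallel to) one
  line, up to `K δ`.
-/

open MeasureTheory

namespace Pool.Agent.Results.MP_850839_an.PlanarHairbrushes

/-- The space `ℝ^n`. -/
abbrev Rn (n : ℕ) : Type := EuclideanSpace ℝ (Fin n)

/-- The `δ`-tube with centre `a` and direction `e` (a unit vector): the closed cylinder of length
`1` and radius `δ` around the segment with centre `a` and direction `e`. -/
def tube {n : ℕ} (δ : ℝ) (a e : Rn n) : Set (Rn n) :=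
  {y | |inner ℝ (y - a) e| ≤ 1 / 2 ∧ ‖(y - a) - (inner ℝ (y - a) e) • e‖ ≤ δ}

/-- The number of the `δ`-tubes with centres `a i` and directions `e i` that contain `x`. -/
noncomputable def mult {n : ℕ} {ι : Type} [Fintype ι] (δ : ℝ) (a e : ι → Rn n) (x : Rn n) : ℝ :=
  ∑ i, (tube δ (a i) (e i)).indicator (fun _ => (1 : ℝ)) x

/-- `0 < δ < 1` and `e` is a `δ`-separated family of unit vectors. -/
def Separated {n : ℕ} {ι : Type} (δ : ℝ) (e : ι → Rn n) : Prop :=
  0 < δ ∧ δ < 1 ∧ (∀ i, ‖e i‖ = 1) ∧ ∀ i j, i ≠ j → δ ≤ ‖e i - e j‖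

/-- **The conjectured inequality, with the constant `C`**, for the `δ`-tubes with centres `a i` and
directions `e i`. -/
def KakeyaBound {n : ℕ} {ι : Type} [Fintype ι] (q C δ : ℝ) (a e : ι → Rn n) : Prop :=
  eLpNorm (mult δ a e) (ENNReal.ofReal q) volume ≤
    ENNReal.ofReal (C * (δ ^ (((n : ℝ) - 1) / q) *
      (Fintype.card ι : ℝ) ^ (1 - 1 / (q * ((n : ℝ) - 1)))))

/-- The hairbrushes are planar, up to the constant `K`: if the tube number `j`, of rank at most that
of the tube number `i`, contains the point `x` of the tube number `i`, then the distance of `e j`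
from the plane spanned by `e i` and `w i` is at most `K δ / |x - p|` for one of the `b` points
`p = P i k`. -/
def PlanarHairbrush {n b : ℕ} {ι : Type} (K δ : ℝ) (a e w : ι → Rn n) (P : ι → Fin b → Rn n)
    (rank : ι → ℝ) : Prop :=
  ∀ i j, rank j ≤ rank i → ∀ x ∈ tube δ (a i) (e i) ∩ tube δ (a j) (e j),
    ∃ k, ∃ s t : ℝ, ‖x - P i k‖ * ‖e j - s • e i - t • w i‖ ≤ K * δ

/-- **The tube inequality for families with planar hairbrushes**, in particular for tubes placed
arbitrarily in the planes spanned by `e` and `J e`, and for tubes coplanar with a line. -/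
theorem result (n : ℕ) (hn : 3 ≤ n) (q : ℝ) (hq : (n : ℝ) / ((n : ℝ) - 1) < q) :
    -- (1) the criterion
    (∀ b : ℕ, ∃ C : ℝ, 0 < C ∧ ∀ (K δ : ℝ) (ι : Type) [Fintype ι] (a e w : ι → Rn n)
      (P : ι → Fin b → Rn n) (rank : ι → ℝ), 1 ≤ K → Separated δ e →
      PlanarHairbrush K δ a e w P rank → KakeyaBound q (C * K ^ (((n : ℝ) - 1) / q)) δ a e) ∧
    -- (2) complex structures and involutions
    (∃ C : ℝ, 0 < C ∧ ∀ (κ δ : ℝ) (J : Rn n →ₗ[ℝ] Rn n) (ι : Type) [Fintype ι] (a e : ι → Rn n)
      (p : Rn n), 1 ≤ κ → (∀ v, ‖J v‖ ≤ κ * ‖v‖) →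
      ((∀ v, J (J v) = -v) ∨ (∀ v, J (J v) = v)) → Separated δ e →
      (∀ i, ∃ s t : ℝ, ‖a i - p - s • e i - t • J (e i)‖ ≤ κ * δ) →
      KakeyaBound q (C * κ ^ (3 * (((n : ℝ) - 1) / q))) δ a e) ∧
    -- (3) tubes coplanar with the line through `p` of direction `u`
    (∃ C : ℝ, 0 < C ∧ ∀ (K δ : ℝ) (ι : Type) [Fintype ι] (a e : ι → Rn n) (p u : Rn n),
      1 ≤ K → ‖u‖ = 1 → Separated δ e →
      (∀ i, ∃ s t : ℝ, ‖a i - p - s • e i - t • u‖ ≤ K * δ) →
      KakeyaBound q (C * K ^ (((n : ℝ) - 1) / q)) δ a e) := by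
  refine ⟨?_, ?_, ?_⟩
  · intro b
    obtain ⟨C, hC, h⟩ := Pool.Agent.X160.Pl.planar hn hq b
    refine ⟨C, hC, ?_⟩
    intro K δ ι _ a e w P rank hK hs hP
    exact h K hK δ hs.1 hs.2.1 ι a e w P rank hs.2.2.1 hs.2.2.2 hP
  · obtain ⟨C1, hC1, h1⟩ := Pool.Agent.X160.Pl.fam_c hn hq
    obtain ⟨C2, hC2, h2⟩ := Pool.Agent.X160.Pl.fam_r hn hq
    refine ⟨C1 + C2, by positivity, ?_⟩
    intro κ δ J ι _ a e p hκ hJn hJ hs ha
    have hκ0 : 0 < κ := by linarith
    rcases hJ with hJ | hJ
    · have h3 := h1 κ hκ J hJn hJ δ hs.1 hs.2.1 ι a e p hs.2.2.1 hs.2.2.2 ha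
      refine Pool.Agent.X160.Pl.KB_mono hs.1 ?_ h3
      gcongr
      linarith
    · have h3 := h2 κ hκ J hJn hJ δ hs.1 hs.2.1 ι a e p hs.2.2.1 hs.2.2.2 ha
      refine Pool.Agent.X160.Pl.KB_mono hs.1 ?_ h3
      gcongr
      linarith
  · obtain ⟨C, hC, h⟩ := Pool.Agent.X160.Pl.fam_l hn hq
    refine ⟨C, hC, ?_⟩
    intro K δ ι _ a e p u hK hu hs ha
    exact h K hK δ hs.1 hs.2.1 ι a e p u hu hs.2.2.1 hs.2.2.2 ha

end Pool.Agent.Results.MP_850839_an.PlanarHairbrushes
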