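import Pool.Agent.X160.Pf.Poly

set_option autoImplicit false

/-!
# MP_850839: the tube inequality, in the full range and without loss, for tubes in the planes of a
Lipschitz family of `2`-planes of bounded overlap

Let `n = m + 2 ≥ 3` and write the points of `ℝ^n` as `x = ((z, y), t)`, `z ∈ ℝ^m`, `y, t ∈ ℝ`, with
the Euclidean norm.  An `(n-2)`-parameter family of `2`-planes is given by three maps `α, β, γ` on
a set `S ⊆ ℝ^m`:

  `Π_s = {((z, y), t) : z = α(s) + t β(s) + y γ(s)}`,  `s ∈ S`.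

Over a set `T ⊆ ℝ²` of pairs `(t, y)` it has overlap at most `M` if almost every point
`((z, y), t)` with `(t, y) ∈ T` lies on at most `M` of the planes.  The maps `α, β, γ` are Lipschitz
on `S`, with any constants, the estimates do not depend on them, and the family may degenerate in
any way.

We prove, for all `q > n/(n-1)`, the inequality of Q1 over `T`, with no loss in `δ` and with the
conjectured power of the number of tubes, for all families of `δ`-tubes with `δ`-separated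
directions that are carried by the family of planes: the `i`-th tube, with slope `v_i = (ζ_i, η_i)`,
`|v_i| ≤ 1`, and centre `((Z_i, Y_i), t_i)`, is carried by the family up to `K δ` for a proportion
`θ` if the slopes `w = (ζ, η)` at distance `< δ/2` of `v_i` that belong to the planes `Π_s` with
`|α(s) + t_i β(s) + Y_i γ(s) - Z_i| ≤ K δ` (so that the tube lies in the `C δ`-neighbourhood of
`Π_s`) form a set of measure at least `θ |B(v_i, δ/2)|`.

Nothing else is assumed: a plane may carry arbitrarily many of the tubes, and their positions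
within the planes are arbitrary.  For families given by polynomials of degree at most `k` no
hypothesis on the overlap is needed.
-/

open MeasureTheory Set Metric
open scoped ENNReal NNReal

namespace Pool.Agent.Results.MP_850839_an.PlaneFamilies

/-- Euclidean space `ℝ^m`. -/
abbrev Vec (m : ℕ) : Type := EuclideanSpace ℝ (Fin m)

/-- The space `ℝ^(m+1)` of the slopes `v = (ζ, η)`, with its Euclidean norm. -/
abbrev Base (m : ℕ) : Type := WithLp 2 (Vec m × ℝ)

/-- Euclidean space `ℝ^n`, `n = m + 2`, with the points `x = ((z, y), t)`: `x.fst.fst = z`,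
`x.fst.snd = y` and `x.snd = t`. -/
abbrev Space (m : ℕ) : Type := WithLp 2 (Base m × ℝ)

variable {m : ℕ}

/-- The closed tube of length `1` and radius `δ` with centre `a` and axis direction `e`. -/
def tube (δ : ℝ) (e a : Space m) : Set (Space m) :=
  {x | |inner ℝ (x - a) e| ≤ 1 / 2 ∧ ‖(x - a) - (inner ℝ (x - a) e : ℝ) • e‖ ≤ δ}

/-- The unit vector `(v, 1)/√(1+|v|²)` of slope `v`. -/
noncomputable def dir (v : Base m) : Space m :=
  (√(1 + ‖v‖ ^ 2))⁻¹ • WithLp.toLp 2 (v, (1:ℝ))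

/-- The number of the `δ`-tubes with slopes `v i` and centres `a i` that contain `x`. -/
noncomputable def mult {ι : Type} [Fintype ι] (δ : ℝ) (v : ι → Base m) (a : ι → Space m)
    (x : Space m) : ℝ :=
  ∑ i, (tube δ (dir (v i)) (a i)).indicator (fun _ => (1 : ℝ)) x

/-- The plane `Π_s` is `{((z, y), t) : z = planePt α β γ (t, y) s}`. -/
noncomputable def planePt (α β γ : Vec m → Vec m) (p : ℝ × ℝ) (s : Vec m) : Vec m :=
  α s + p.1 • β s + p.2 • γ s

/-- The maps `α, β, γ` are Lipschitz on the measurable set `S`. -/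
def LipschitzFamily (S : Set (Vec m)) (α β γ : Vec m → Vec m) : Prop :=
  MeasurableSet S ∧ ∃ L : ℝ≥0, LipschitzOnWith L α S ∧ LipschitzOnWith L β S ∧ LipschitzOnWith L γ S

/-- For almost every `p = (t, y) ∈ T`, almost every point `((z, y), t)` lies on at most `M` of the
planes `Π_s`, `s ∈ S`. -/
def OverlapLE (M : ℕ) (T : Set (ℝ × ℝ)) (S : Set (Vec m)) (α β γ : Vec m → Vec m) : Prop :=
  ∀ᵐ p : ℝ × ℝ, p ∈ T → ∀ᵐ z : Vec m, {s | s ∈ S ∧ planePt α β γ p s = z}.encard ≤ M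

/-- The tube with slope `v` and centre `a` is carried by the family up to `K δ`, for a proportion
at least `θ` of the slopes at distance `< δ/2` of its own. -/
def Carried (θ δ K : ℝ) (S : Set (Vec m)) (α β γ : Vec m → Vec m) (v : Base m) (a : Space m) :
    Prop :=
  ENNReal.ofReal θ * volume (ball v (δ / 2)) ≤ volume {w : Base m | ‖w - v‖ < δ / 2 ∧
    ∃ s ∈ S, w.fst = β s + w.snd • γ s ∧
      ‖planePt α β γ (a.snd, a.fst.snd) s - a.fst.fst‖ ≤ K * δ}

/-- The polynomial map with components `P`. -/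
noncomputable def polyMap (P : Fin m → MvPolynomial (Fin m) ℝ) (s : Vec m) : Vec m :=
  WithLp.toLp 2 (fun j => MvPolynomial.eval (fun i => s i) (P j))

/-- The inequality of Q1 over `T`, with constant `C`, for the `δ`-tubes with slopes `v i` and
centres `a i` (`n = m + 2`). -/
def TubeBound {ι : Type} [Fintype ι] (q C δ : ℝ) (T : Set (ℝ × ℝ)) (v : ι → Base m)
    (a : ι → Space m) : Prop :=
  eLpNorm (mult δ v a) (ENNReal.ofReal q)
      (volume.restrict {x : Space m | (x.snd, x.fst.snd) ∈ T}) ≤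
    ENNReal.ofReal (C * (δ ^ (((m : ℝ) + 1) / q) *
      (Fintype.card ι : ℝ) ^ (1 - 1 / (q * ((m : ℝ) + 1)))))

/-- **The tube inequality for tubes in the planes of an `(n-2)`-parameter family of `2`-planes in
`ℝ^n`, in the full range `q > n/(n-1)`, `n = m + 2`, without any loss in `δ`:**

1. for Lipschitz families of overlap at most `M` over `T`;
2. for all families given by polynomials of degree at most `k` on a bounded set of parameters.

The constants `C` depend on `n`, `q` (and `k`) only. -/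
theorem result (m : ℕ) (hm : 1 ≤ m) (q : ℝ) (hq : ((m : ℝ) + 2) / (m + 1) < q) :
    (∃ C : ℝ, 0 < C ∧ ∀ (M : ℕ) (A K θ : ℝ) (T : Set (ℝ × ℝ)) (S : Set (Vec m))
      (α β γ : Vec m → Vec m), 0 ≤ A → 0 ≤ K → 0 < θ → MeasurableSet T →
      LipschitzFamily S α β γ → (∀ s ∈ S, ‖γ s‖ ≤ A) → OverlapLE M T S α β γ →
      ∀ δ : ℝ, 0 < δ → δ < 1 → ∀ (ι : Type) [Fintype ι] (v : ι → Base m) (a : ι → Space m),
      (∀ i, ‖v i‖ ≤ 1) → (∀ i j, i ≠ j → δ ≤ ‖dir (v i) - dir (v j)‖) →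
      (∀ i, Carried θ δ K S α β γ (v i) (a i)) →
      TubeBound q (C * ((1 + M) ^ (min (q - 1) 1) * θ ^ (-(1 / ((m : ℝ) + 1))) *
        (1 + K + A) ^ (4 * m)) ^ (1 / q)) δ T v a) ∧
    (∀ k : ℕ, ∃ C : ℝ, 0 < C ∧ ∀ (A K θ : ℝ) (S : Set (Vec m))
      (P Q R : Fin m → MvPolynomial (Fin m) ℝ), 0 ≤ A → 0 ≤ K → 0 < θ → MeasurableSet S →
      Bornology.IsBounded S → (∀ j, (P j).totalDegree ≤ k ∧ (Q j).totalDegree ≤ k ∧
        (R j).totalDegree ≤ k) → (∀ s ∈ S, ‖polyMap R s‖ ≤ A) →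
      ∀ δ : ℝ, 0 < δ → δ < 1 → ∀ (ι : Type) [Fintype ι] (v : ι → Base m) (a : ι → Space m),
      (∀ i, ‖v i‖ ≤ 1) → (∀ i j, i ≠ j → δ ≤ ‖dir (v i) - dir (v j)‖) →
      (∀ i, Carried θ δ K S (polyMap P) (polyMap Q) (polyMap R) (v i) (a i)) →
      TubeBound q (C * (θ ^ (-(1 / ((m : ℝ) + 1))) * (1 + K + A) ^ (4 * m)) ^ (1 / q))
        δ Set.univ v a) := by
  have hm0 : (0 : ℝ) < m := by exact_mod_cast hm
  have hd0 : (0 : ℝ) < (m : ℝ) + 1 := by positivity
  have hq1 : 1 < ((m : ℝ) + 1) * (q - 1) := by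
    rw [div_lt_iff₀ hd0] at hq
    linarith
  have hq2 : 0 < q - 1 := by
    by_contra h
    push Not at h
    nlinarith
  have hq0 : 0 < q := by linarith
  set r : ℝ := min (q - 1) 1 with hr
  have hr1 : r ≤ 1 := min_le_right _ _
  have hrd : 1 < ((m : ℝ) + 1) * r := by
    rcases le_total (q - 1) 1 with h | h
    · rw [hr, min_eq_left h]; exact hq1
    · rw [hr, min_eq_right h]; linarith
  have hr0 : 0 ≤ r := by
    by_contra h
    push Not at h
    nlinarith
  have hrq : r + 1 ≤ q := by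
    have : r ≤ q - 1 := min_le_left _ _
    linarith
  set D : ℝ := max (Pool.Agent.X160.Pf.Cf m r) 1 with hD
  have hD0 : 0 < D := lt_of_lt_of_le one_pos (le_max_right _ _)
  have main : ∀ (M : ℕ) (A K θ : ℝ) (T : Set (ℝ × ℝ)) (S : Set (Vec m))
      (α β γ : Vec m → Vec m), 0 ≤ A → 0 ≤ K → 0 < θ → MeasurableSet T →
      LipschitzFamily S α β γ → (∀ s ∈ S, ‖γ s‖ ≤ A) → OverlapLE M T S α β γ →
      ∀ δ : ℝ, 0 < δ → δ < 1 → ∀ (ι : Type) [Fintype ι] (v : ι → Base m) (a : ι → Space m),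
      (∀ i, ‖v i‖ ≤ 1) → (∀ i j, i ≠ j → δ ≤ ‖dir (v i) - dir (v j)‖) →
      (∀ i, Carried θ δ K S α β γ (v i) (a i)) →
      TubeBound q (D ^ (1 / q) * ((1 + M) ^ r * θ ^ (-(1 / ((m : ℝ) + 1))) *
        (1 + K + A) ^ (4 * m)) ^ (1 / q)) δ T v a := by
    intro M A K θ T S α β γ hA hK hθ hT hF hγA hO δ hδ hδ1 ι _ v a hv hsep hc
    obtain ⟨hS, L, hα, hβ, hγ⟩ := hF
    have hint := Pool.Agent.X160.Pf.final hm hrd hr1 hrq hK hθ hδ hδ1 hA hT hS hα hβ hγ
      hγA hO v a hv hsep hc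
    have hp0 : ENNReal.ofReal q ≠ 0 := by
      rw [ne_eq, ENNReal.ofReal_eq_zero, not_le]
      exact hq0
    unfold TubeBound
    rw [eLpNorm_eq_lintegral_rpow_enorm_toReal hp0 ENNReal.ofReal_ne_top,
      ENNReal.toReal_ofReal hq0.le]
    set N : ℝ := (Fintype.card ι : ℝ) with hN
    have hN0 : 0 ≤ N := Nat.cast_nonneg _
    have hM0 : (0 : ℝ) ≤ M := Nat.cast_nonneg _
    set X : ℝ := (1 + M) ^ r * θ ^ (-(1 / ((m : ℝ) + 1))) * (1 + K + A) ^ (4 * m) with hX
    have hX0 : 0 ≤ X := by positivity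
    have hle : Pool.Agent.X160.Pf.Cf m r * (1 + M) ^ r * θ ^ (-(1 / ((m : ℝ) + 1))) *
          (1 + K + A) ^ (4 * m) * δ ^ ((m : ℝ) + 1) * N ^ (q - 1 / ((m : ℝ) + 1)) ≤
        D * X * (δ ^ ((m : ℝ) + 1) * N ^ (q - 1 / ((m : ℝ) + 1))) := by
      have h1 : Pool.Agent.X160.Pf.Cf m r ≤ D := le_max_left _ _
      calc Pool.Agent.X160.Pf.Cf m r * (1 + M) ^ r * θ ^ (-(1 / ((m : ℝ) + 1))) *
          (1 + K + A) ^ (4 * m) * δ ^ ((m : ℝ) + 1) * N ^ (q - 1 / ((m : ℝ) + 1))
          = Pool.Agent.X160.Pf.Cf m r *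
            (X * (δ ^ ((m : ℝ) + 1) * N ^ (q - 1 / ((m : ℝ) + 1)))) := by
            rw [hX]; ring
        _ ≤ D * (X * (δ ^ ((m : ℝ) + 1) * N ^ (q - 1 / ((m : ℝ) + 1)))) := by gcongr
        _ = _ := by ring
    calc (∫⁻ x in {x : Space m | (x.snd, x.fst.snd) ∈ T}, ‖mult δ v a x‖ₑ ^ q) ^ (1 / q)
        ≤ (ENNReal.ofReal (D * X * (δ ^ ((m : ℝ) + 1) * N ^ (q - 1 / ((m : ℝ) + 1))))) ^ (1 / q) :=
          ENNReal.rpow_le_rpow (hint.trans (ENNReal.ofReal_le_ofReal hle)) (by positivity)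
      _ = ENNReal.ofReal ((D * X * (δ ^ ((m : ℝ) + 1) * N ^ (q - 1 / ((m : ℝ) + 1)))) ^ (1 / q)) :=
          ENNReal.ofReal_rpow_of_nonneg (by positivity) (by positivity)
      _ = _ := by
          congr 1
          have f1 : ((m : ℝ) + 1) * (1 / q) = ((m : ℝ) + 1) / q := by ring
          have f2 : (q - 1 / ((m : ℝ) + 1)) * (1 / q) = 1 - 1 / (q * ((m : ℝ) + 1)) := by
            field_simp
          have f3 : (δ ^ ((m : ℝ) + 1) * N ^ (q - 1 / ((m : ℝ) + 1))) ^ (1 / q) =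
              δ ^ (((m : ℝ) + 1) / q) * N ^ (1 - 1 / (q * ((m : ℝ) + 1))) := by
            rw [Real.mul_rpow (by positivity) (by positivity), ← Real.rpow_mul hδ.le,
              ← Real.rpow_mul hN0, f1, f2]
          rw [Real.mul_rpow (by positivity) (by positivity), Real.mul_rpow hD0.le hX0, f3]
  refine ⟨⟨D ^ (1 / q), by positivity, main⟩, ?_⟩
  intro k
  set M : ℕ := ((k * m + 1) ^ m) ^ m with hM
  have hM0 : (0 : ℝ) ≤ M := Nat.cast_nonneg _
  refine ⟨(D * (1 + M) ^ r) ^ (1 / q), by positivity, ?_⟩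
  intro A K θ S P Q R hA hK hθ hS hSb hdeg hγA δ hδ hδ1 ι _ v a hv hsep hc
  have h1 := main M A K θ Set.univ S (polyMap P) (polyMap Q) (polyMap R) hA hK hθ
    MeasurableSet.univ ⟨hS, Pool.Agent.X160.Pf.poly_lip hSb P Q R⟩ hγA
    (Pool.Agent.X160.Pf.poly_overlap hm S P Q R (fun j => (hdeg j).1) (fun j => (hdeg j).2.1)
      (fun j => (hdeg j).2.2)) δ hδ hδ1 ι v a hv hsep hc
  have e : D ^ (1 / q) * ((1 + M) ^ r * θ ^ (-(1 / ((m : ℝ) + 1))) *
      (1 + K + A) ^ (4 * m)) ^ (1 / q) =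
      (D * (1 + M) ^ r) ^ (1 / q) * (θ ^ (-(1 / ((m : ℝ) + 1))) *
        (1 + K + A) ^ (4 * m)) ^ (1 / q) := by
    rw [← Real.mul_rpow (by positivity) (by positivity),
      ← Real.mul_rpow (by positivity) (by positivity)]
    congr 1
    ring
  rw [e] at h1
  exact h1

end Pool.Agent.Results.MP_850839_an.PlaneFamilies
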