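import Pool.Agent.X160.Ps.Main

set_option autoImplicit false

/-!
# MP_850839: the tube inequality in the full range, with arbitrarily small loss, for tubes in the
planes of a smooth family of `2`-planes (no hypothesis on the overlap)

Let `n = m + 2 ≥ 3` and write the points of `ℝ^n` as `x = ((z, y), t)`, `z ∈ ℝ^m`, `y, t ∈ ℝ`, with
the Euclidean norm.  An `(n-2)`-parameter family of `2`-planes is given by three maps
`α, β, γ : ℝ^m → ℝ^m`:

  `Π_s = {((z, y), t) : z = α(s) + t β(s) + y γ(s)}`,  `s ∈ S`, `S` a subset of the unit ball.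

Here `α, β, γ` are of class `C^(k+1)`, `k ≥ 1`, with derivatives of order at most `k + 1` bounded by
`A` on the unit ball.  Nothing else is assumed on the family: it may degenerate in any way, and
infinitely many of the planes may pass through all the points of a set of positive measure.

We prove, for all `q > n/(n-1)`, the inequality of Q1 with the conjectured power of the number of
tubes and with the loss `δ^(-m² min(q-1, 1)/(k q))`, for all families of `δ`-tubes with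
`δ`-separated directions that are carried by the family of planes: the `i`-th tube, with slope
`v_i = (ζ_i, η_i)`, `|v_i| ≤ 1`, and centre `((Z_i, Y_i), t_i)`, `|t_i|, |Y_i| ≤ Λ`, is carried by
the family up to `K δ` for a proportion `θ` if the slopes `w = (ζ, η)` at distance `< δ/2` of `v_i`
that belong to the planes `Π_s` with `|α(s) + t_i β(s) + Y_i γ(s) - Z_i| ≤ K δ` (so that the tube
lies in the `C δ`-neighbourhood of `Π_s`) form a set of measure at least `θ |B(v_i, δ/2)|`.  A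
plane may carry arbitrarily many of the tubes, and their positions within the planes are arbitrary.
For families of class `C^∞` the loss is `δ^(-ε)` for every `ε > 0`.
-/

open MeasureTheory Set Metric
open scoped ENNReal NNReal ContDiff

namespace Pool.Agent.Results.MP_850839_an.SmoothPlaneFamilies

/-- Euclidean space `ℝ^m`. -/
abbrev Vec (m : ℕ) : Type := EuclideanSpace ℝ (Fin m)

/-- The space `ℝ^(m+1)` of the slopes `v = (ζ, η)`, with its Euclidean norm. -/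
abbrev Base (m : ℕ) : Type := WithLp 2 (Vec m × ℝ)

/-- Euclidean space `ℝ^n`, `n = m + 2`, with the points `x = ((z, y), t)`: `x.fst.fst = z`,
`x.fst.snd = y` and `x.snd = t`. -/
abbrev Space (m : ℕ) : Type := WithLp 2 (Base m × ℝ)

variable {m : ℕ}

/-- The closed tube of length `1` and radius `δ` with centre `a` and axis direction `e`. -/
def tube (δ : ℝ) (e a : Space m) : Set (Space m) :=
  {x | |inner ℝ (x - a) e| ≤ 1 / 2 ∧ ‖(x - a) - (inner ℝ (x - a) e : ℝ) • e‖ ≤ δ}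

/-- The unit vector `(v, 1)/√(1+|v|²)` of slope `v`. -/
noncomputable def dir (v : Base m) : Space m :=
  (√(1 + ‖v‖ ^ 2))⁻¹ • WithLp.toLp 2 (v, (1:ℝ))

/-- The number of the `δ`-tubes with slopes `v i` and centres `a i` that contain `x`. -/
noncomputable def mult {ι : Type} [Fintype ι] (δ : ℝ) (v : ι → Base m) (a : ι → Space m)
    (x : Space m) : ℝ :=
  ∑ i, (tube δ (dir (v i)) (a i)).indicator (fun _ => (1 : ℝ)) x

/-- The plane `Π_s` is `{((z, y), t) : z = planePt α β γ (t, y) s}`. -/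
noncomputable def planePt (α β γ : Vec m → Vec m) (p : ℝ × ℝ) (s : Vec m) : Vec m :=
  α s + p.1 • β s + p.2 • γ s

/-- The map `b` is of class `C^(k+1)`, and its derivatives of order at most `k + 1` are bounded by
`A` on the unit ball. -/
def SmoothBound (k : ℕ) (A : ℝ) (b : Vec m → Vec m) : Prop :=
  ContDiff ℝ (k + 1 : ℕ) b ∧ ∀ j ≤ k + 1, ∀ s, ‖s‖ ≤ 1 → ‖iteratedFDeriv ℝ j b s‖ ≤ A

/-- The tube with slope `v` and centre `a` is carried by the family up to `K δ`, for a proportion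
at least `θ` of the slopes at distance `< δ/2` of its own. -/
def Carried (θ δ K : ℝ) (S : Set (Vec m)) (α β γ : Vec m → Vec m) (v : Base m) (a : Space m) :
    Prop :=
  ENNReal.ofReal θ * volume (ball v (δ / 2)) ≤ volume {w : Base m | ‖w - v‖ < δ / 2 ∧
    ∃ s ∈ S, w.fst = β s + w.snd • γ s ∧
      ‖planePt α β γ (a.snd, a.fst.snd) s - a.fst.fst‖ ≤ K * δ}

/-- The inequality of Q1 with constant `C`, for the `δ`-tubes with slopes `v i` and centres `a i`
(`n = m + 2`). -/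
def TubeBound {ι : Type} [Fintype ι] (q C δ : ℝ) (v : ι → Base m) (a : ι → Space m) : Prop :=
  eLpNorm (mult δ v a) (ENNReal.ofReal q) volume ≤
    ENNReal.ofReal (C * (δ ^ (((m : ℝ) + 1) / q) *
      (Fintype.card ι : ℝ) ^ (1 - 1 / (q * ((m : ℝ) + 1)))))

/-- **The tube inequality for tubes in the planes of a smooth `(n-2)`-parameter family of
`2`-planes in `ℝ^n`, in the full range `q > n/(n-1)`, `n = m + 2`:**

1. for families of class `C^(k+1)`, with the loss `δ ^ (-m² min(q-1, 1)/(k q))`;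
2. for families of class `C^∞`, with the loss `δ ^ (-ε)` for every `ε > 0`. -/
theorem result (m : ℕ) (hm : 1 ≤ m) (q : ℝ) (hq : ((m : ℝ) + 2) / (m + 1) < q) :
    (∀ k : ℕ, 1 ≤ k → ∃ C : ℝ, 0 < C ∧ ∀ (A K Λ θ : ℝ) (S : Set (Vec m))
      (α β γ : Vec m → Vec m), 0 ≤ A → 0 ≤ K → 0 ≤ Λ → 0 < θ → MeasurableSet S →
      S ⊆ closedBall 0 1 → SmoothBound k A α → SmoothBound k A β → SmoothBound k A γ →
      ∀ δ : ℝ, 0 < δ → δ < 1 → ∀ (ι : Type) [Fintype ι] (v : ι → Base m) (a : ι → Space m),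
      (∀ i, ‖v i‖ ≤ 1) → (∀ i, |(a i).snd| ≤ Λ ∧ |(a i).fst.snd| ≤ Λ) →
      (∀ i j, i ≠ j → δ ≤ ‖dir (v i) - dir (v j)‖) →
      (∀ i, Carried θ δ K S α β γ (v i) (a i)) →
      TubeBound q (C * (δ ^ (-((m : ℝ) ^ 2 * min (q - 1) 1 / k)) *
        θ ^ (-(1 / ((m : ℝ) + 1) + m / k)) * (1 + K + A + Λ) ^ (4 * m + m ^ 2)) ^ (1 / q))
        δ v a) ∧
    (∀ (K Λ θ : ℝ) (α β γ : Vec m → Vec m), 0 ≤ K → 0 ≤ Λ → 0 < θ →
      ContDiff ℝ ∞ α → ContDiff ℝ ∞ β → ContDiff ℝ ∞ γ → ∀ ε : ℝ, 0 < ε →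
      ∃ C : ℝ, 0 < C ∧ ∀ S : Set (Vec m), MeasurableSet S → S ⊆ closedBall 0 1 →
      ∀ δ : ℝ, 0 < δ → δ < 1 → ∀ (ι : Type) [Fintype ι] (v : ι → Base m) (a : ι → Space m),
      (∀ i, ‖v i‖ ≤ 1) → (∀ i, |(a i).snd| ≤ Λ ∧ |(a i).fst.snd| ≤ Λ) →
      (∀ i j, i ≠ j → δ ≤ ‖dir (v i) - dir (v j)‖) →
      (∀ i, Carried θ δ K S α β γ (v i) (a i)) →
      TubeBound q (C * δ ^ (-ε)) δ v a) := by
  have hm0 : (0 : ℝ) < m := by exact_mod_cast hm
  have hd0 : (0 : ℝ) < (m : ℝ) + 1 := by positivity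
  have hq1 : 1 < ((m : ℝ) + 1) * (q - 1) := by
    rw [div_lt_iff₀ hd0] at hq
    linarith
  have hq2 : 0 < q - 1 := by
    by_contra h
    push Not at h
    nlinarith
  have hq0 : 0 < q := by linarith
  set r : ℝ := min (q - 1) 1 with hr
  have hr1 : r ≤ 1 := min_le_right _ _
  have hrd : 1 < ((m : ℝ) + 1) * r := by
    rcases le_total (q - 1) 1 with h | h
    · rw [hr, min_eq_left h]; exact hq1
    · rw [hr, min_eq_right h]; linarith
  have hr0 : 0 ≤ r := by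
    by_contra h
    push Not at h
    nlinarith
  have hrq : r + 1 ≤ q := by
    have : r ≤ q - 1 := min_le_left _ _
    linarith
  obtain ⟨D, hD0, hD⟩ := Pool.Agent.X160.Ps.det_close hm
  have part1 : ∀ k : ℕ, 1 ≤ k → ∃ C : ℝ, 0 < C ∧ ∀ (A K Λ θ : ℝ) (S : Set (Vec m))
      (α β γ : Vec m → Vec m), 0 ≤ A → 0 ≤ K → 0 ≤ Λ → 0 < θ → MeasurableSet S →
      S ⊆ closedBall 0 1 → SmoothBound k A α → SmoothBound k A β → SmoothBound k A γ →
      ∀ δ : ℝ, 0 < δ → δ < 1 → ∀ (ι : Type) [Fintype ι] (v : ι → Base m) (a : ι → Space m),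
      (∀ i, ‖v i‖ ≤ 1) → (∀ i, |(a i).snd| ≤ Λ ∧ |(a i).fst.snd| ≤ Λ) →
      (∀ i j, i ≠ j → δ ≤ ‖dir (v i) - dir (v j)‖) →
      (∀ i, Carried θ δ K S α β γ (v i) (a i)) →
      TubeBound q (C * (δ ^ (-((m : ℝ) ^ 2 * r / k)) *
        θ ^ (-(1 / ((m : ℝ) + 1) + m / k)) * (1 + K + A + Λ) ^ (4 * m + m ^ 2)) ^ (1 / q))
        δ v a := by
    intro k hk
    set D' : ℝ := max (Pool.Agent.X160.Ps.CS m k r D) 1 with hD'
    have hD'0 : 0 < D' := lt_of_lt_of_le one_pos (le_max_right _ _)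
    refine ⟨D' ^ (1 / q), by positivity, ?_⟩
    intro A K Λ θ S α β γ hA hK hΛ hθ hS hS1 hα hβ hγ δ hδ hδ1 ι _ v a hv ha hsep hc
    have hint := Pool.Agent.X160.Ps.smooth_final hm hrd hr1 hrq hk hD0 hD hA hK hΛ hθ hδ hδ1 hS
      hS1 hα hβ hγ v a hv ha hsep hc
    have hp0 : ENNReal.ofReal q ≠ 0 := by
      rw [ne_eq, ENNReal.ofReal_eq_zero, not_le]
      exact hq0
    unfold TubeBound
    rw [eLpNorm_eq_lintegral_rpow_enorm_toReal hp0 ENNReal.ofReal_ne_top,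
      ENNReal.toReal_ofReal hq0.le]
    have e0 : -(m * (m * r) / k) = -((m : ℝ) ^ 2 * r / k) := by ring
    rw [e0] at hint
    set N : ℝ := (Fintype.card ι : ℝ) with hN
    have hN0 : 0 ≤ N := Nat.cast_nonneg _
    set X : ℝ := δ ^ (-((m : ℝ) ^ 2 * r / k)) * θ ^ (-(1 / ((m : ℝ) + 1) + m / k)) *
      (1 + K + A + Λ) ^ (4 * m + m ^ 2) with hX
    have hX0 : 0 ≤ X := by positivity
    have hle : Pool.Agent.X160.Ps.CS m k r D * X *
          (δ ^ ((m : ℝ) + 1) * N ^ (q - 1 / ((m : ℝ) + 1))) ≤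
        D' * X * (δ ^ ((m : ℝ) + 1) * N ^ (q - 1 / ((m : ℝ) + 1))) := by
      have h1 : Pool.Agent.X160.Ps.CS m k r D ≤ D' := le_max_left _ _
      gcongr
    calc (∫⁻ x : Space m, ‖mult δ v a x‖ₑ ^ q) ^ (1 / q)
        ≤ (ENNReal.ofReal (D' * X * (δ ^ ((m : ℝ) + 1) * N ^ (q - 1 / ((m : ℝ) + 1))))) ^ (1 / q) :=
          ENNReal.rpow_le_rpow (hint.trans (ENNReal.ofReal_le_ofReal hle)) (by positivity)
      _ = ENNReal.ofReal ((D' * X * (δ ^ ((m : ℝ) + 1) * N ^ (q - 1 / ((m : ℝ) + 1)))) ^ (1 / q)) :=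
          ENNReal.ofReal_rpow_of_nonneg (by positivity) (by positivity)
      _ = _ := by
          congr 1
          have f1 : ((m : ℝ) + 1) * (1 / q) = ((m : ℝ) + 1) / q := by ring
          have f2 : (q - 1 / ((m : ℝ) + 1)) * (1 / q) = 1 - 1 / (q * ((m : ℝ) + 1)) := by
            field_simp
          have f3 : (δ ^ ((m : ℝ) + 1) * N ^ (q - 1 / ((m : ℝ) + 1))) ^ (1 / q) =
              δ ^ (((m : ℝ) + 1) / q) * N ^ (1 - 1 / (q * ((m : ℝ) + 1))) := by
            rw [Real.mul_rpow (by positivity) (by positivity), ← Real.rpow_mul hδ.le,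
              ← Real.rpow_mul hN0, f1, f2]
          rw [Real.mul_rpow (by positivity) (by positivity), Real.mul_rpow hD'0.le hX0, f3]
  refine ⟨part1, ?_⟩
  intro K Λ θ α β γ hK hΛ hθ hα hβ hγ ε hε
  obtain ⟨k, hk⟩ := exists_nat_ge (max 1 ((m : ℝ) ^ 2 / (ε * q)))
  have hk1 : (1 : ℝ) ≤ k := (le_max_left _ _).trans hk
  have hk1' : 1 ≤ k := by exact_mod_cast hk1
  have hk0 : (0 : ℝ) < k := by linarith
  have hk2 : (m : ℝ) ^ 2 / (ε * q) ≤ k := (le_max_right _ _).trans hk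
  obtain ⟨C, hC0, hC⟩ := part1 k hk1'
  -- bounds for the derivatives
  have hbd : ∀ b : Vec m → Vec m, ContDiff ℝ ∞ b → ∃ A : ℝ, 0 ≤ A ∧ SmoothBound k A b := by
    intro b hb
    have hb' : ContDiff ℝ (k + 1 : ℕ) b := hb.of_le (by exact_mod_cast le_top)
    have h1 : ∀ j : ℕ, ∃ A : ℝ, ∀ s : Vec m, ‖s‖ ≤ 1 → j ≤ k + 1 →
        ‖iteratedFDeriv ℝ j b s‖ ≤ A := by
      intro j
      by_cases hj : j ≤ k + 1
      · have hcont : Continuous (fun s => iteratedFDeriv ℝ j b s) :=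
          hb'.continuous_iteratedFDeriv (by exact_mod_cast hj)
        obtain ⟨A, hA⟩ := (isCompact_closedBall (0 : Vec m) 1).exists_bound_of_continuousOn
          hcont.continuousOn
        exact ⟨A, fun s hs _ => hA s (by simpa using hs)⟩
      · exact ⟨0, fun s _ h => absurd h hj⟩
    choose A hA using h1
    refine ⟨∑ j ∈ Finset.range (k + 2), |A j|, by positivity, hb', ?_⟩
    intro j hj s hs
    refine (hA j s hs hj).trans ((le_abs_self _).trans ?_)
    exact Finset.single_le_sum (f := fun j => |A j|) (fun _ _ => abs_nonneg _)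
      (Finset.mem_range.2 (by omega))
  obtain ⟨A₁, hA₁, h₁⟩ := hbd α hα
  obtain ⟨A₂, hA₂, h₂⟩ := hbd β hβ
  obtain ⟨A₃, hA₃, h₃⟩ := hbd γ hγ
  set A : ℝ := A₁ + A₂ + A₃ with hA
  have hA0 : 0 ≤ A := by positivity
  have hmono : ∀ (b : Vec m → Vec m) (B : ℝ), B ≤ A → SmoothBound k B b → SmoothBound k A b :=
    fun b B hB h => ⟨h.1, fun j hj s hs => (h.2 j hj s hs).trans hB⟩
  set Y : ℝ := θ ^ (-(1 / ((m : ℝ) + 1) + m / k)) * (1 + K + A + Λ) ^ (4 * m + m ^ 2) with hY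
  have hY0 : 0 < Y := by positivity
  refine ⟨C * Y ^ (1 / q), by positivity, ?_⟩
  intro S hS hS1 δ hδ hδ1 ι _ v a hv ha hsep hc
  have h4 := hC A K Λ θ S α β γ hA0 hK hΛ hθ hS hS1 (hmono α A₁ (by linarith) h₁)
    (hmono β A₂ (by linarith) h₂) (hmono γ A₃ (by linarith) h₃) δ hδ hδ1 ι v a hv ha hsep hc
  unfold TubeBound at h4 ⊢
  refine h4.trans (ENNReal.ofReal_le_ofReal ?_)
  apply mul_le_mul_of_nonneg_right _ (by positivity)
  have e1 : δ ^ (-((m : ℝ) ^ 2 * r / k)) * θ ^ (-(1 / ((m : ℝ) + 1) + m / k)) *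
      (1 + K + A + Λ) ^ (4 * m + m ^ 2) = δ ^ (-((m : ℝ) ^ 2 * r / k)) * Y := by
    rw [hY]; ring
  rw [e1, Real.mul_rpow (by positivity) hY0.le, ← Real.rpow_mul hδ.le]
  have e2 : δ ^ (-((m : ℝ) ^ 2 * r / k) * (1 / q)) ≤ δ ^ (-ε) := by
    apply Real.rpow_le_rpow_of_exponent_ge hδ hδ1.le
    rw [div_le_iff₀ (by positivity)] at hk2
    have e3 : (m : ℝ) ^ 2 * r / k * (1 / q) ≤ ε := by
      rw [div_mul_div_comm, div_le_iff₀ (by positivity), mul_one]
      have : (m : ℝ) ^ 2 * r ≤ (m : ℝ) ^ 2 * 1 := by gcongr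
      nlinarith
    linarith
  calc C * (δ ^ (-((m : ℝ) ^ 2 * r / k) * (1 / q)) * Y ^ (1 / q))
      ≤ C * (δ ^ (-ε) * Y ^ (1 / q)) := by gcongr
    _ = _ := by ring

end Pool.Agent.Results.MP_850839_an.SmoothPlaneFamilies
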