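import Pool.Agent.X160.Ws.Fin

set_option autoImplicit false

/-!
# MP_850839: thin tubes with well-spaced directions

`n ≥ 3`; `c` is a slope at which the Kakeya inequality is known for all families (`Slope n c`):
`c > 2(n-1)/n` (Wolff's range) or, for `n ≥ 10`, `c > 1` with `c³ - 4c + 2 > 0` (arithmetic range,
`c > 1.675...`).

1. (several scales) Let `0 < w ≤ ρ^(j+1)`.  For every family of `N` tubes of radius `w` whose
  directions are `ρ`-separated (that is: the separation of the directions is much larger than the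
  radius of the tubes), and `1 ≤ q ≤ 1 + c/(n-1)`,
  `∫ (∑ 1_T)^q ≤ C w^(n-1) N (1 + ((w/ρ^(j+1)) N^((1-1/c)^j (n-2)/(n-1)))^(q-1))`.
2. Consequently, if the orientations are `δ^(1/K)`-separated with
  `K ≥ 1 + j + (1-1/c)^j (n-2)` for some `j`, then the `δ`-tubes are essentially disjoint:
  `∫ (∑ 1_T)^q ≤ C δ^(n-1) #T`, `|⋃ T| ≥ κ δ^(n-1) #T`, and the conjectured inequality holds for
  all `q ≥ n/(n-1)`, *the endpoint included*.
3. In particular this is so for every `K > 1 + j + ((n-2)/(2(n-1)))^j (n-2)`, e.g. for all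
  `K > 8/3` in `ℝ^4`;
4. and for `K = j + 2` when `2^j ≥ n - 2`.  So `K` of the order of `log n` suffices (the trivial
  bound, from the `L²` argument, is `K = n - 1`).
-/

open MeasureTheory
open scoped ENNReal

namespace Pool.Agent.Results.MP_850839_an.WellSpacedDirections

/-- The space `ℝ^n`. -/
abbrev Rn (n : ℕ) : Type := EuclideanSpace ℝ (Fin n)

/-- The `δ`-tube with centre `a` and direction `e` (a unit vector): the closed cylinder of length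
`1` and radius `δ` around the segment with centre `a` and direction `e`. -/
def tube {n : ℕ} (δ : ℝ) (a e : Rn n) : Set (Rn n) :=
  {y | |inner ℝ (y - a) e| ≤ 1 / 2 ∧ ‖(y - a) - (inner ℝ (y - a) e) • e‖ ≤ δ}

/-- The number of the `δ`-tubes with centres `a i` and directions `e i` that contain `x`. -/
noncomputable def mult {n : ℕ} {ι : Type} [Fintype ι] (δ : ℝ) (a e : ι → Rn n) (x : Rn n) : ℝ :=
  ∑ i, (tube δ (a i) (e i)).indicator (fun _ => (1 : ℝ)) x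

/-- The family `e` of unit vectors is `s`-separated. -/
def Separated {n : ℕ} {ι : Type} (s : ℝ) (e : ι → Rn n) : Prop :=
  (∀ i, ‖e i‖ = 1) ∧ ∀ i j, i ≠ j → s ≤ ‖e i - e j‖

/-- **The conjectured inequality, with the constant `C`**, for the `δ`-tubes with centres `a i` and
directions `e i`. -/
def KakeyaBound {n : ℕ} {ι : Type} [Fintype ι] (q C δ : ℝ) (a e : ι → Rn n) : Prop :=
  eLpNorm (mult δ a e) (ENNReal.ofReal q) volume ≤
    ENNReal.ofReal (C * (δ ^ (((n : ℝ) - 1) / q) *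
      (Fintype.card ι : ℝ) ^ (1 - 1 / (q * ((n : ℝ) - 1)))))

/-- The slopes at which the Kakeya inequality is known for all families. -/
def Slope (n : ℕ) (c : ℝ) : Prop := 1 ≤ c ∧ c ≤ (n : ℝ) - 1 ∧
  (2 * ((n : ℝ) - 1) / n < c ∨ (10 ≤ n ∧ 1 < c ∧ 0 < c ^ 3 - 4 * c + 2))

/-- All families of `δ`-tubes in `ℝ^n` with `δ^(1/K)`-separated orientations are essentially
disjoint (in `L^q` for `1 ≤ q ≤ Q` and in volume), and satisfy the conjectured inequality for all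
`q ≥ n/(n-1)`, the endpoint included. -/
def EssentiallyDisjoint (n : ℕ) (K Q : ℝ) : Prop :=
  (∀ q : ℝ, 1 ≤ q → q ≤ Q → ∃ C : ℝ, 0 < C ∧ ∀ δ : ℝ, 0 < δ → δ < 1 →
    ∀ (ι : Type) [Fintype ι] (a e : ι → Rn n), Separated (δ ^ (1 / K)) e →
      ∫⁻ x, ‖mult δ a e x‖ₑ ^ q ≤ ENNReal.ofReal (C * δ ^ (n - 1) * (Fintype.card ι : ℝ))) ∧
  (∃ κ : ℝ, 0 < κ ∧ ∀ δ : ℝ, 0 < δ → δ < 1 →
    ∀ (ι : Type) [Fintype ι] (a e : ι → Rn n), Separated (δ ^ (1 / K)) e →
      ENNReal.ofReal (κ * δ ^ (n - 1) * (Fintype.card ι : ℝ)) ≤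
        volume (⋃ i, tube δ (a i) (e i))) ∧
  (∀ q : ℝ, (n : ℝ) / ((n : ℝ) - 1) ≤ q → ∃ C : ℝ, 0 < C ∧ ∀ δ : ℝ, 0 < δ → δ < 1 →
    ∀ (ι : Type) [Fintype ι] (a e : ι → Rn n), Separated (δ ^ (1 / K)) e →
      KakeyaBound q C δ a e)

open Pool.Agent.X160.Ws Pool.Agent.Y249.AC

theorem tubeB_of_slope {d : ℕ} (hd : 2 ≤ d) {c : ℝ} (h : Slope (d + 1) c) : TubeB d c := by
  obtain ⟨_, _, h | ⟨h10, hc1, hc⟩⟩ := h
  · apply tubeB_wolff hd
    push_cast at h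
    rwa [add_sub_cancel_right] at h
  · exact tubeB_arith (by omega) hc1 hc

theorem cast_sub' (d : ℕ) : (((d + 1 : ℕ) : ℝ) - 1) = d := by push_cast; ring

theorem ed_of {d : ℕ} (hd : 2 ≤ d) {c : ℝ} (h : Slope (d + 1) c) {j : ℕ} {K : ℝ}
    (hK : (j : ℝ) + 1 + (1 - 1 / c) ^ j * ((d : ℝ) - 1) ≤ K) :
    EssentiallyDisjoint (d + 1) K (1 + c / d) := by
  have hd0 : (0 : ℝ) < d := by exact_mod_cast (by omega : 0 < d)
  have hc1 := h.1
  have hcd := h.2.1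
  rw [cast_sub'] at hcd
  have hc0 : 0 < c := by linarith
  have hκ0 : 0 ≤ 1 - 1 / c := by
    have : 1 / c ≤ 1 := by rw [div_le_one hc0]; exact hc1
    linarith
  have hS := sj_all hd hc1 hcd (tubeB_of_slope hd h) j
  have h1d : 1 / (d : ℝ) ≤ c / d := by gcongr
  have h1d0 : 0 < 1 / (d : ℝ) := by positivity
  have hI : ∀ q : ℝ, 1 ≤ q → q ≤ 1 + c / d → ∃ C : ℝ, 0 < C ∧ ∀ δ : ℝ, 0 < δ → δ < 1 →
      ∀ (ι : Type) [Fintype ι] (a e : ι → Rn (d + 1)), Separated (δ ^ (1 / K)) e →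
      ∫⁻ x, Pool.Agent.X160.Pl.mm δ a e x ^ q ≤
        ENNReal.ofReal (C * δ ^ d * (Fintype.card ι : ℝ)) := by
    intro q hq hqQ
    obtain ⟨C, hC, h2⟩ := good_int hd hκ0 hS hK hq hqQ
    exact ⟨C, hC, fun δ hδ hδ1 ι _ a e hs => h2 δ hδ hδ1 ι a e hs.1 hs.2⟩
  refine ⟨?_, ?_, ?_⟩
  · intro q hq hqQ
    obtain ⟨C, hC, h2⟩ := hI q hq hqQ
    refine ⟨C, hC, ?_⟩
    intro δ hδ hδ1 ι _ a e hs
    have h3 := h2 δ hδ hδ1 ι a e hs
    simp only [← Pool.Agent.X160.Pl.enorm_mult] at h3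
    rw [Nat.add_sub_cancel]
    exact h3
  · obtain ⟨C, hC, h2⟩ := hI (1 + c / d) (by linarith) le_rfl
    obtain ⟨κ, hκ, h3⟩ := vol_of_int (d := d) (Q := 1 + c / d) (by linarith) hC
    refine ⟨κ, hκ, ?_⟩
    intro δ hδ hδ1 ι _ a e hs
    rw [Nat.add_sub_cancel]
    exact h3 δ hδ hδ1 ι a e hs.1 (h2 δ hδ hδ1 ι a e hs)
  · intro q hq
    obtain ⟨C, hC, h2⟩ := hI (1 + 1 / d) (by linarith) (by linarith)
    have hq' : 1 + 1 / (d : ℝ) ≤ q := by
      rw [cast_sub'] at hq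
      refine le_trans (le_of_eq ?_) hq
      push_cast
      field_simp
    refine ⟨C ^ (1 / q), by positivity, ?_⟩
    intro δ hδ hδ1 ι _ a e hs
    exact kb_of_int hd hC hδ a e (h2 δ hδ hδ1 ι a e hs) hq'

theorem ed_mono {n : ℕ} {K Q Q' : ℝ} (hQ : Q' ≤ Q) (h : EssentiallyDisjoint n K Q) :
    EssentiallyDisjoint n K Q' :=
  ⟨fun q hq hqQ => h.1 q hq (hqQ.trans hQ), h.2⟩

/-- Slopes near the end of Wolff's range. -/
theorem ed_wolff {d : ℕ} (hd : 2 ≤ d) (j : ℕ) {K : ℝ}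
    (hK : (j : ℝ) + 1 + (((d : ℝ) - 1) / (2 * d)) ^ j * ((d : ℝ) - 1) < K) :
    EssentiallyDisjoint (d + 1) K (1 + 2 / ((d : ℝ) + 1)) := by
  have hd2 : (2 : ℝ) ≤ d := by exact_mod_cast hd
  have hd0 : (0 : ℝ) < d := by linarith
  set c0 : ℝ := 2 * (d : ℝ) / (d + 1) with hc0
  have hc00 : 0 < c0 := by positivity
  have hc01 : 1 ≤ c0 := by rw [hc0, le_div_iff₀ (by linarith)]; linarith
  have hcd0 : c0 < d := by rw [hc0, div_lt_iff₀ (by linarith)]; nlinarith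
  have he : 1 - 1 / c0 = ((d : ℝ) - 1) / (2 * d) := by
    rw [hc0]
    field_simp
    ring
  have hcont : ContinuousAt (fun c : ℝ => (j : ℝ) + 1 + (1 - 1 / c) ^ j * ((d : ℝ) - 1)) c0 := by
    have h1 : ContinuousAt (fun c : ℝ => 1 / c) c0 := by
      simp only [one_div]
      exact continuousAt_inv₀ hc00.ne'
    exact continuousAt_const.add (((continuousAt_const.sub h1).pow j).mul continuousAt_const)
  have hlt : (fun c : ℝ => (j : ℝ) + 1 + (1 - 1 / c) ^ j * ((d : ℝ) - 1)) c0 < K := by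
    simp only [he]
    exact hK
  have hev := hcont.eventually_lt continuousAt_const hlt
  obtain ⟨ε, hε, hb⟩ := Metric.eventually_nhds_iff.1 hev
  set c : ℝ := c0 + min (ε / 2) ((d : ℝ) - c0) with hc
  have hm0 : 0 < min (ε / 2) ((d : ℝ) - c0) := lt_min (by positivity) (by linarith)
  have hcε : dist c c0 < ε := by
    rw [hc, Real.dist_eq, add_sub_cancel_left, abs_of_pos hm0]
    exact lt_of_le_of_lt (min_le_left _ _) (by linarith)
  have h1 := hb hcε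
  have hcc : c0 < c := by rw [hc]; linarith
  have hcd : c ≤ d := by
    rw [hc]
    have := min_le_right (ε / 2) ((d : ℝ) - c0)
    linarith
  have hsl : Slope (d + 1) c := by
    refine ⟨by linarith, by rw [cast_sub']; exact hcd, Or.inl ?_⟩
    rw [cast_sub']
    push_cast
    exact hcc
  refine ed_mono ?_ (ed_of hd hsl h1.le)
  have h2 : 2 / ((d : ℝ) + 1) = c0 / d := by
    rw [hc0]
    field_simp
  rw [h2]
  gcongr

/-- **Thin tubes with well-spaced directions.** -/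
theorem result (n : ℕ) (hn : 3 ≤ n) :
    -- (1) several scales
    (∀ c : ℝ, Slope n c → ∀ (j : ℕ) (q : ℝ), 1 ≤ q → q ≤ 1 + c / ((n : ℝ) - 1) →
      ∃ C : ℝ, 0 < C ∧ ∀ ρ w : ℝ, 0 < ρ → ρ < 1 → 0 < w → w ≤ ρ ^ (j + 1) →
      ∀ (ι : Type) [Fintype ι] (a e : ι → Rn n), Separated ρ e →
      ∫⁻ x, ‖mult w a e x‖ₑ ^ q ≤ ENNReal.ofReal (C * w ^ (n - 1) * ((Fintype.card ι : ℝ) +
        (w / ρ ^ (j + 1)) ^ (q - 1) * (Fintype.card ι : ℝ) ^
          (1 + (q - 1) * (1 - 1 / c) ^ j * (((n : ℝ) - 2) / ((n : ℝ) - 1)))))) ∧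
    -- (2) essential disjointness
    (∀ c : ℝ, Slope n c → ∀ (j : ℕ) (K : ℝ), 1 + (j : ℝ) + (1 - 1 / c) ^ j * ((n : ℝ) - 2) ≤ K →
      EssentiallyDisjoint n K (1 + c / ((n : ℝ) - 1))) ∧
    -- (3) the Wolff range
    (∀ (j : ℕ) (K : ℝ),
      1 + (j : ℝ) + (((n : ℝ) - 2) / (2 * ((n : ℝ) - 1))) ^ j * ((n : ℝ) - 2) < K →
      EssentiallyDisjoint n K (1 + 2 / (n : ℝ))) ∧
    -- (4) a logarithmic bound
    (∀ j : ℕ, 1 ≤ j → n ≤ 2 ^ j + 2 → EssentiallyDisjoint n ((j : ℝ) + 2) (1 + 2 / (n : ℝ))) := by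
  obtain ⟨d, rfl⟩ : ∃ d, n = d + 1 := ⟨n - 1, by omega⟩
  have hd : 2 ≤ d := by omega
  have hd2 : (2 : ℝ) ≤ d := by exact_mod_cast hd
  have hd0 : (0 : ℝ) < d := by linarith
  have e1 : (((d + 1 : ℕ) : ℝ) - 2) = d - 1 := by push_cast; ring
  have h3 : ∀ (j : ℕ) (K : ℝ),
      1 + (j : ℝ) + (((d : ℝ) - 1) / (2 * d)) ^ j * ((d : ℝ) - 1) < K →
      EssentiallyDisjoint (d + 1) K (1 + 2 / ((d + 1 : ℕ) : ℝ)) := by
    intro j K hK
    have h4 := ed_wolff hd j (K := K) (by linarith)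
    push_cast
    exact h4
  rw [e1, cast_sub']
  refine ⟨?_, ?_, h3, ?_⟩
  · intro c hc j q hq hqQ
    have hcd := hc.2.1
    rw [cast_sub'] at hcd
    obtain ⟨C, hC, h⟩ := sj_all hd hc.1 hcd (tubeB_of_slope hd hc) j q hq hqQ
    refine ⟨C, hC, ?_⟩
    intro ρ w hρ hρ1 hw hwρ ι _ a e hs
    have h4 := h ρ w hρ hρ1 hw hwρ ι a e hs.1 hs.2
    simp only [← Pool.Agent.X160.Pl.enorm_mult] at h4
    have e2 : 1 - 1 / (((d + 1 - 1 : ℕ)) : ℝ) = ((d : ℝ) - 1) / d := by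
      rw [Nat.add_sub_cancel]
      field_simp
    rw [e2] at h4
    exact h4
  · intro c hc j K hK
    exact ed_of hd hc (by linarith)
  · intro j hj1 hj
    apply h3
    have hpow : (d : ℝ) - 1 ≤ 2 ^ j := by
      have : ((d + 1 : ℕ) : ℝ) ≤ ((2 ^ j + 2 : ℕ) : ℝ) := by exact_mod_cast hj
      push_cast at this
      linarith
    have hfr : ((d : ℝ) - 1) / (2 * d) < 1 / 2 := by
      rw [div_lt_div_iff₀ (by positivity) (by norm_num)]
      linarith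
    have hfr0 : 0 ≤ ((d : ℝ) - 1) / (2 * d) := div_nonneg (by linarith) (by positivity)
    have h5 : (((d : ℝ) - 1) / (2 * d)) ^ j < (1 / 2) ^ j :=
      pow_lt_pow_left₀ hfr hfr0 (by omega)
    have h6 : (((d : ℝ) - 1) / (2 * d)) ^ j * ((d : ℝ) - 1) < 1 := by
      calc (((d : ℝ) - 1) / (2 * d)) ^ j * ((d : ℝ) - 1) < (1 / 2) ^ j * ((d : ℝ) - 1) := by
            gcongr
            linarith
        _ ≤ (1 / 2) ^ j * 2 ^ j := by gcongr
        _ = 1 := by rw [← mul_pow]; norm_num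
    linarith

end Pool.Agent.Results.MP_850839_an.WellSpacedDirections
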